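import Pool.Agent.H21.T3.Stm

set_option autoImplicit false

namespace Pool.Agent.H65.T3

open Finset

/-- the steps: east, west, north -/
def st : Fin 3 → ℤ × ℤ := ![(1, 0), (-1, 0), (0, 1)]

def ok (e d : Fin 3) : Prop := ¬ (e = 0 ∧ d = 1) ∧ ¬ (e = 1 ∧ d = 0)

instance (e d : Fin 3) : Decidable (ok e d) := by unfold ok; infer_instance

def ext {n : ℕ} (d : Fin 3) (f : Fin (n + 1) → ℤ × ℤ) : Fin (n + 2) → ℤ × ℤ :=
  Fin.snoc (α := fun _ => ℤ × ℤ) f (f (Fin.last n) + st d)

noncomputable def A : (n : ℕ) → Fin 3 → Finset (Fin (n + 1) → ℤ × ℤ)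
  | 0, d => if d = 2 then {fun _ => 0} else ∅
  | n + 1, d => ((univ : Finset (Fin 3)).filter (fun e => ok e d)).biUnion
      (fun e => (A n e).image (ext d))

theorem ext_last {n : ℕ} (d : Fin 3) (f : Fin (n + 1) → ℤ × ℤ) :
    ext d f (Fin.last (n + 1)) = f (Fin.last n) + st d := by
  unfold ext; exact Fin.snoc_last _ _

theorem ext_cast {n : ℕ} (d : Fin 3) (f : Fin (n + 1) → ℤ × ℤ) (i : Fin (n + 1)) :
    ext d f i.castSucc = f i := by
  unfold ext; exact Fin.snoc_castSucc (α := fun _ => ℤ × ℤ) _ _ _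

theorem ext_inj {n : ℕ} (d : Fin 3) : Function.Injective (ext (n := n) d) := by
  intro f g h
  funext i
  rw [← ext_cast d f i, h, ext_cast]

theorem st_inj : Function.Injective st := by
  intro a b h
  fin_cases a <;> fin_cases b <;> simp_all [st]

structure Inv {n : ℕ} (d : Fin 3) (f : Fin (n + 1) → ℤ × ℤ) : Prop where
  zero : f 0 = 0
  inj : Function.Injective f
  adj : ∀ i : Fin n, |(f i.castSucc).1 - (f i.succ).1| + |(f i.castSucc).2 - (f i.succ).2| = 1
  le : ∀ i, (f i).2 ≤ (f (Fin.last n)).2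
  e : d = 0 → ∀ i, (f i).2 = (f (Fin.last n)).2 → (f i).1 ≤ (f (Fin.last n)).1
  w : d = 1 → ∀ i, (f i).2 = (f (Fin.last n)).2 → (f (Fin.last n)).1 ≤ (f i).1
  n : d = 2 → ∀ i, (f i).2 = (f (Fin.last n)).2 → (f i).1 = (f (Fin.last n)).1

theorem inv_ext {n : ℕ} (e d : Fin 3) (hed : ok e d) (f : Fin (n + 1) → ℤ × ℤ) (hf : Inv e f) :
    Inv d (ext d f) := by
  have hl := ext_last d f
  have key : ∀ i : Fin (n + 1), (f i).2 ≤ (f (Fin.last n)).2 ∧
      (d = 0 → (f i).2 = (f (Fin.last n)).2 → (f i).1 ≤ (f (Fin.last n)).1) ∧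
      (d = 1 → (f i).2 = (f (Fin.last n)).2 → (f (Fin.last n)).1 ≤ (f i).1) := by
    intro i
    refine ⟨hf.le i, ?_, ?_⟩
    · intro hd h
      fin_cases e
      · exact hf.e rfl i h
      · exact absurd ⟨rfl, hd⟩ hed.2
      · exact (hf.n rfl i h).le
    · intro hd h
      fin_cases e
      · exact absurd ⟨rfl, hd⟩ hed.1
      · exact hf.w rfl i h
      · exact (hf.n rfl i h).ge
  have hne : ∀ i : Fin (n + 1), f i ≠ f (Fin.last n) + st d := by
    intro i h
    obtain ⟨k1, k2, k3⟩ := key i
    have h1 := congrArg Prod.fst h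
    have h2 := congrArg Prod.snd h
    fin_cases d
    · simp [st] at h1 h2; have := k2 rfl h2; omega
    · simp [st] at h1 h2; have := k3 rfl h2; omega
    · simp [st] at h1 h2; omega
  refine ⟨?_, ?_, ?_, ?_, ?_, ?_, ?_⟩
  · have : (0 : Fin (n + 2)) = (0 : Fin (n + 1)).castSucc := rfl
    rw [this, ext_cast]; exact hf.zero
  · intro i j h
    induction i using Fin.lastCases with
    | last =>
      induction j using Fin.lastCases with
      | last => rfl
      | cast j => rw [ext_last, ext_cast] at h; exact absurd h.symm (hne j)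
    | cast i =>
      induction j using Fin.lastCases with
      | last => rw [ext_last, ext_cast] at h; exact absurd h (hne i)
      | cast j => rw [ext_cast, ext_cast] at h; rw [hf.inj h]
  · intro i
    induction i using Fin.lastCases with
    | last =>
      rw [ext_cast, Fin.succ_last, ext_last]
      fin_cases d <;> simp [st]
    | cast i =>
      rw [ext_cast, Fin.succ_castSucc, ext_cast]; exact hf.adj i
  · intro i
    rw [ext_last]
    induction i using Fin.lastCases with
    | last => rw [ext_last]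
    | cast i =>
      rw [ext_cast]
      have := hf.le i
      fin_cases d <;> simp [st] <;> omega
  · intro hd i
    rw [ext_last]
    subst hd
    induction i using Fin.lastCases with
    | last => intro _; rw [ext_last]
    | cast i =>
      rw [ext_cast]
      obtain ⟨k1, k2, k3⟩ := key i
      simp only [st, Matrix.cons_val_zero, Prod.snd_add, Prod.fst_add, add_zero]
      intro h
      have := k2 rfl h
      omega
  · intro hd i
    rw [ext_last]
    subst hd
    induction i using Fin.lastCases with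
    | last => intro _; rw [ext_last]
    | cast i =>
      rw [ext_cast]
      obtain ⟨k1, k2, k3⟩ := key i
      simp only [st, Matrix.cons_val_one, Matrix.cons_val_zero, Prod.snd_add, Prod.fst_add, add_zero]
      intro h
      have := k3 rfl h
      omega
  · intro hd i
    rw [ext_last]
    subst hd
    induction i using Fin.lastCases with
    | last => intro _; rw [ext_last]
    | cast i =>
      rw [ext_cast]
      obtain ⟨k1, k2, k3⟩ := key i
      simp [st]
      intro h
      omega

theorem inv_A : ∀ (n : ℕ) (d : Fin 3), ∀ f ∈ A n d, Inv d f := by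
  intro n
  induction n with
  | zero =>
    intro d f hf
    by_cases hd : d = 2
    · simp [A, hd] at hf
      subst hf
      refine ⟨rfl, ?_, ?_, ?_, ?_, ?_, ?_⟩
      · intro i j _; exact Fin.ext (by omega)
      · intro i; exact i.elim0
      all_goals simp
    · simp [A, hd] at hf
  | succ n ih =>
    intro d f hf
    simp only [A, mem_biUnion, mem_filter, mem_univ, true_and, mem_image] at hf
    obtain ⟨e, he, g, hg, rfl⟩ := hf
    exact inv_ext e d he g (ih e g hg)

theorem last_step (n : ℕ) (d : Fin 3) (f : Fin (n + 2) → ℤ × ℤ) (hf : f ∈ A (n + 1) d) :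
    f (Fin.last (n + 1)) = f (Fin.last n).castSucc + st d := by
  simp only [A, mem_biUnion, mem_filter, mem_univ, true_and, mem_image] at hf
  obtain ⟨e, he, g, hg, rfl⟩ := hf
  rw [ext_last, ext_cast]

theorem disj (n : ℕ) (d e : Fin 3) (h : d ≠ e) : Disjoint (A n d) (A n e) := by
  rw [Finset.disjoint_left]
  intro f h1 h2
  cases n with
  | zero =>
    by_cases hd : d = 2
    · have he : e ≠ 2 := fun h' => h (hd.trans h'.symm)
      simp [A, he] at h2
    · simp [A, hd] at h1
  | succ n =>
    have a1 := last_step n d f h1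
    have a2 := last_step n e f h2
    rw [a1] at a2
    exact h (st_inj (add_left_cancel a2))

theorem card_succ (n : ℕ) (d : Fin 3) :
    (A (n + 1) d).card = ∑ e ∈ (univ : Finset (Fin 3)).filter (fun e => ok e d), (A n e).card := by
  rw [A, Finset.card_biUnion]
  · refine Finset.sum_congr rfl fun e _ => ?_
    exact Finset.card_image_of_injective _ (ext_inj d)
  · intro x _ y _ hxy
    exact (Finset.disjoint_image (ext_inj d)).2 (disj n x y hxy)

theorem card0 (n : ℕ) : (A (n + 1) 0).card = (A n 0).card + (A n 2).card := by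
  rw [card_succ]
  have : (univ : Finset (Fin 3)).filter (fun e => ok e 0) = {0, 2} := by decide
  rw [this]; simp

theorem card1 (n : ℕ) : (A (n + 1) 1).card = (A n 1).card + (A n 2).card := by
  rw [card_succ]
  have : (univ : Finset (Fin 3)).filter (fun e => ok e 1) = {1, 2} := by decide
  rw [this]; simp

theorem card2 (n : ℕ) : (A (n + 1) 2).card = (A n 0).card + (A n 1).card + (A n 2).card := by
  rw [card_succ]
  have : (univ : Finset (Fin 3)).filter (fun e => ok e 2) = {0, 1, 2} := by decide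
  rw [this]; simp; ring

theorem growth (n : ℕ) : (12 / 5 : ℝ) ^ n ≤
    7 / 10 * ((A n 0).card + (A n 1).card : ℝ) + (A n 2).card := by
  induction n with
  | zero => simp [A]
  | succ n ih =>
    rw [card0, card1, card2, pow_succ]
    push_cast
    have h0 : (0 : ℝ) ≤ (A n 0).card := by positivity
    have h1 : (0 : ℝ) ≤ (A n 1).card := by positivity
    nlinarith

theorem fin_walks (n : ℕ) : {f : Fin (n + 1) → ℤ × ℤ | f 0 = 0 ∧ Function.Injective f ∧
    ∀ i : Fin n, |(f i.castSucc).1 - (f i.succ).1| + |(f i.castSucc).2 - (f i.succ).2| = 1}.Finite := by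
  have hb : ∀ f : Fin (n + 1) → ℤ × ℤ, f 0 = 0 →
      (∀ i : Fin n, |(f i.castSucc).1 - (f i.succ).1| + |(f i.castSucc).2 - (f i.succ).2| = 1) →
      ∀ i : Fin (n + 1), |(f i).1| ≤ i ∧ |(f i).2| ≤ i := by
    intro f h0 h i
    induction i using Fin.induction with
    | zero => simp [h0]
    | succ i ih =>
      have hi := h i
      have a1 := abs_nonneg ((f i.castSucc).1 - (f i.succ).1)
      have a2 := abs_nonneg ((f i.castSucc).2 - (f i.succ).2)
      have b1 : |(f i.castSucc).1 - (f i.succ).1| ≤ 1 := by omega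
      have b2 : |(f i.castSucc).2 - (f i.succ).2| ≤ 1 := by omega
      obtain ⟨c1, c2⟩ := ih
      rw [abs_le] at b1 b2 c1 c2 ⊢
      rw [abs_le]
      simp only [Fin.val_castSucc, Fin.val_succ] at c1 c2 ⊢
      push_cast
      constructor <;> constructor <;> omega
  have hfin : (Set.univ.pi (fun _ : Fin (n + 1) => (Set.Icc (-(n : ℤ)) n) ×ˢ (Set.Icc (-(n : ℤ)) n))).Finite :=
    Set.Finite.pi' (fun _ => (Set.finite_Icc _ _).prod (Set.finite_Icc _ _)) |>.subset (by
      intro f hf i
      exact hf i trivial)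
  refine hfin.subset ?_
  rintro f ⟨h0, -, h⟩ i -
  obtain ⟨c1, c2⟩ := hb f h0 h i
  rw [abs_le] at c1 c2
  have := i.2
  refine ⟨⟨?_, ?_⟩, ⟨?_, ?_⟩⟩ <;> omega

theorem mus (n : ℕ) : (12 / 5 : ℝ) ^ n ≤ ({f : Fin (n + 1) → ℤ × ℤ | f 0 = 0 ∧ Function.Injective f ∧
    ∀ i : Fin n, |(f i.castSucc).1 - (f i.succ).1| + |(f i.castSucc).2 - (f i.succ).2| = 1}.ncard : ℝ) := by
  have hsub : ((A n 0 ∪ A n 1 ∪ A n 2 : Finset (Fin (n + 1) → ℤ × ℤ)) : Set (Fin (n + 1) → ℤ × ℤ)) ⊆
      {f : Fin (n + 1) → ℤ × ℤ | f 0 = 0 ∧ Function.Injective f ∧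
        ∀ i : Fin n, |(f i.castSucc).1 - (f i.succ).1| + |(f i.castSucc).2 - (f i.succ).2| = 1} := by
    intro f hf
    simp only [Finset.coe_union, Set.mem_union, Finset.mem_coe] at hf
    rcases hf with (hf | hf) | hf
    all_goals
      have := inv_A n _ f hf
      exact ⟨this.zero, this.inj, this.adj⟩
  have h1 := Set.ncard_le_ncard hsub (fin_walks n)
  rw [Set.ncard_coe_finset] at h1
  have h2 : (A n 0 ∪ A n 1 ∪ A n 2).card = (A n 0).card + (A n 1).card + (A n 2).card := by
    rw [Finset.card_union_of_disjoint, Finset.card_union_of_disjoint (disj n 0 1 (by decide))]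
    rw [Finset.disjoint_union_left]
    exact ⟨disj n 0 2 (by decide), disj n 1 2 (by decide)⟩
  have h3 : ((A n 0).card + (A n 1).card + (A n 2).card : ℝ) ≤
      ({f : Fin (n + 1) → ℤ × ℤ | f 0 = 0 ∧ Function.Injective f ∧
    ∀ i : Fin n, |(f i.castSucc).1 - (f i.succ).1| + |(f i.castSucc).2 - (f i.succ).2| = 1}.ncard : ℝ) := by
    rw [h2] at h1
    exact_mod_cast h1
  have h4 := growth n
  have h5 : (0 : ℝ) ≤ (A n 0).card := by positivity
  have h6 : (0 : ℝ) ≤ (A n 1).card := by positivity
  linarith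

theorem t_MUS : Pool.Agent.H21.T3.S_MUS := mus

end Pool.Agent.H65.T3
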